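import Pool.Agent.Helper89.Hia.Defs

/-!
MP_5ace61_lc (full answer: `s ≤ hia`), block F: transfer between σ-centered interval algebras and
algebras of subsets of `ℕ`.
-/

open Set Cardinal

namespace Pool.Agent.Hia

/-- A centered set avoids some prime ideal. -/
lemma exists_prime {B : Type*} [BooleanAlgebra B] {S : Set B} (h : IsCentered S) :
    ∃ J : Order.Ideal B, J.IsPrime ∧ ∀ s ∈ S, s ∉ J := by
  classical
  set F : Set B := {b | ∃ G : Finset B, (G : Set B) ⊆ S ∧ G.inf id ≤ b} with hF
  have hFil : Order.IsPFilter F := by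
    refine Order.IsPFilter.of_def ⟨⊤, ∅, by simp, by simp⟩ ?_ ?_
    · rintro x ⟨G, hG, hGx⟩ y ⟨G', hG', hGy⟩
      refine ⟨(G ∪ G').inf id, ⟨G ∪ G', by simp [hG, hG'], le_rfl⟩, ?_, ?_⟩
      · exact (Finset.inf_mono Finset.subset_union_left).trans hGx
      · exact (Finset.inf_mono Finset.subset_union_right).trans hGy
    · rintro x y hxy ⟨G, hG, hGx⟩
      exact ⟨G, hG, hGx.trans hxy⟩
  have hdisj : Disjoint ((hFil.toPFilter : Order.PFilter B) : Set B)
      ((Order.Ideal.principal (⊥ : B)) : Set B) := by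
    rw [Set.disjoint_left]
    rintro x ⟨G, hG, hGx⟩ hx
    have hx' : x ≤ ⊥ := hx
    exact h G hG (le_bot_iff.mp (hGx.trans hx'))
  obtain ⟨J, hJ, -, hJd⟩ := DistribLattice.prime_ideal_of_disjoint_filter_ideal hdisj
  refine ⟨J, hJ, fun s hs hsJ => ?_⟩
  exact Set.disjoint_left.mp hJd (show s ∈ F from ⟨{s}, by simpa using hs, by simp⟩) hsJ

/-- BLOCK F (transfer) -/
theorem exists_embedding {B : Type*} [BooleanAlgebra B] (h : IsSigmaCentered B) :
    ∃ f : BoundedLatticeHom B (Set ℕ), Function.Injective f := by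
  classical
  obtain ⟨F, hF, hB⟩ := h
  choose J hJ hJF using fun n => exists_prime (hF n)
  refine ⟨{ toFun := fun b => {n | b ∉ J n}
            map_sup' := ?_
            map_inf' := ?_
            map_top' := ?_
            map_bot' := ?_ }, ?_⟩
  · intro a b
    ext n
    simp only [mem_setOf_eq, Order.Ideal.sup_mem_iff, Set.sup_eq_union, mem_union]
    tauto
  · intro a b
    ext n
    simp only [mem_setOf_eq, Set.inf_eq_inter, mem_inter_iff]
    constructor
    · intro h
      exact ⟨fun ha => h ((J n).lower inf_le_left ha), fun hb => h ((J n).lower inf_le_right hb)⟩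
    · rintro ⟨h1, h2⟩ h3
      rcases (hJ n).mem_or_mem h3 with h4 | h4
      · exact h1 h4
      · exact h2 h4
  · ext n
    simp only [mem_setOf_eq, Set.top_eq_univ, mem_univ, iff_true]
    exact Order.Ideal.IsProper.top_notMem (hJ n).toIsProper
  · ext n
    simp
  · have key : ∀ b b' : B, b \ b' ≠ ⊥ → ({n | b ∉ J n} : Set ℕ) ≠ {n | b' ∉ J n} := by
      intro b b' hbb heq
      have h1 : b \ b' ∈ ⋃ n, F n := by rw [← hB]; exact hbb
      obtain ⟨n, hn⟩ := mem_iUnion.mp h1
      have h2 := hJF n _ hn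
      have h3 : b ∉ J n := fun hb => h2 ((J n).lower sdiff_le hb)
      have h4 : b' ∈ J n := by
        have h5 : (b \ b') ⊓ b' ∈ J n := by
          rw [inf_comm, inf_sdiff_self_right]; exact (J n).bot_mem
        rcases (hJ n).mem_or_mem h5 with h6 | h6
        · exact absurd h6 h2
        · exact h6
      have h5 : n ∈ ({n | b' ∉ J n} : Set ℕ) := by rw [← heq]; exact h3
      exact h5 h4
    intro b b' heq
    by_contra hne
    have heq' : ({n | b ∉ J n} : Set ℕ) = {n | b' ∉ J n} := heq
    by_cases h1 : b \ b' = ⊥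
    · by_cases h2 : b' \ b = ⊥
      · exact hne (le_antisymm (sdiff_eq_bot_iff.mp h1) (sdiff_eq_bot_iff.mp h2))
      · exact key _ _ h2 heq'.symm
    · exact key _ _ h1 heq'

/-- Transfer, with the structure theorem for algebras of subsets of `ℕ` as a hypothesis. -/
theorem interval_of_small_of_core
    (core : ∀ {L : Set (Set ℕ)}, IsChain (· ⊆ ·) L → ∀ {A : BooleanSubalgebra (Set ℕ)},
      A ≤ BooleanSubalgebra.closure L → #A < splittingNumber →
      ∃ H : Set (Set ℕ), H ⊆ A ∧ IsChain (· ⊆ ·) H ∧ BooleanSubalgebra.closure H = A)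
    {B : Type*} [BooleanAlgebra B] (h : IsSigmaCentered B)
    (hB : IsIntervalAlgebra B) (A : BooleanSubalgebra B)
    (hcard : Cardinal.lift.{0} #A < Cardinal.lift splittingNumber) : IsIntervalAlgebra A := by
  classical
  obtain ⟨f, hf⟩ := exists_embedding h
  obtain ⟨Ch, hCh, hcl⟩ := hB
  have hmono : ∀ {a b : B}, a ≤ b → f a ≤ f b := fun {a b} hab => OrderHomClass.mono f hab
  have hrefl : ∀ {a b : B}, f a ≤ f b → a ≤ b := by
    intro a b hab
    have h1 : f (a ⊓ b) = f a := by rw [map_inf]; exact inf_eq_left.mpr hab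
    exact inf_eq_left.mp (hf h1)
  -- the chain in `Set ℕ`
  have hL : IsChain (· ⊆ ·) (f '' Ch) := by
    rintro _ ⟨a, ha, rfl⟩ _ ⟨b, hb, rfl⟩ hne
    have hab : a ≠ b := fun e => hne (by rw [e])
    rcases hCh ha hb hab with h1 | h1
    · exact Or.inl (hmono h1)
    · exact Or.inr (hmono h1)
  have hA : A.map f ≤ BooleanSubalgebra.closure (f '' Ch) := by
    rw [BooleanSubalgebra.map_le_iff_le_comap]
    refine le_trans le_top ?_
    rw [← hcl, BooleanSubalgebra.closure_le]
    intro c hc
    exact BooleanSubalgebra.subset_closure ⟨c, hc, rfl⟩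
  have hcard' : #(A.map f) < splittingNumber := by
    have e : A ≃ (A.map f) :=
      Equiv.ofBijective (fun a => ⟨f a, ⟨a, a.2, rfl⟩⟩) ⟨by
        intro a b hab
        exact Subtype.ext (hf (congrArg Subtype.val hab)), by
        rintro ⟨_, ⟨a, ha, rfl⟩⟩
        exact ⟨⟨a, ha⟩, rfl⟩⟩
    have h1 : Cardinal.lift.{0} #A = Cardinal.lift #(A.map f) := Cardinal.mk_congr_lift e
    rw [h1] at hcard
    exact Cardinal.lift_lt.mp hcard
  obtain ⟨H, hHA, hHc, hHcl⟩ := core hL hA hcard'
  refine ⟨{a : A | f a ∈ H}, ?_, ?_⟩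
  · intro a ha b hb hne
    have hab : f a ≠ f b := fun e => hne (Subtype.ext (hf e))
    rcases hHc ha hb hab with h1 | h1
    · exact Or.inl (Subtype.coe_le_coe.mp (hrefl h1))
    · exact Or.inr (Subtype.coe_le_coe.mp (hrefl h1))
  · rw [eq_top_iff]
    intro a _
    have key : ∀ x ∈ BooleanSubalgebra.closure H, ∀ a : A, f a = x →
        a ∈ BooleanSubalgebra.closure {a : A | f a ∈ H} := by
      intro x hx
      refine BooleanSubalgebra.closure_bot_sup_induction
        (p := fun x _ => ∀ a : A, f a = x → a ∈ BooleanSubalgebra.closure {a : A | f a ∈ H})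
        ?_ ?_ ?_ ?_ hx
      · intro x hx a ha
        exact BooleanSubalgebra.subset_closure (by simpa [ha] using hx)
      · intro a ha
        have : a = ⊥ := Subtype.ext (hf (by rw [ha]; simp))
        rw [this]; exact BooleanSubalgebra.bot_mem
      · intro x hx y hy ihx ihy a ha
        rw [hHcl] at hx hy
        obtain ⟨a1, ha1, rfl⟩ := hx
        obtain ⟨a2, ha2, rfl⟩ := hy
        have : a = (⟨a1, ha1⟩ : A) ⊔ ⟨a2, ha2⟩ :=
          Subtype.ext (hf (by rw [ha]; simp))
        rw [this]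
        exact BooleanSubalgebra.sup_mem (ihx _ rfl) (ihy _ rfl)
      · intro x hx ihx a ha
        rw [hHcl] at hx
        obtain ⟨a1, ha1, rfl⟩ := hx
        have : a = (⟨a1, ha1⟩ : A)ᶜ :=
          Subtype.ext (hf (by rw [ha]; simp))
        rw [this]
        exact BooleanSubalgebra.compl_mem (ihx _ rfl)
    refine key (f a) ?_ a rfl
    rw [hHcl]
    exact ⟨a, a.2, rfl⟩

end Pool.Agent.Hia
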